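import Pool.Agent.HF.CV.Statement

/-!
# Very ampleness on a finite cover from very ampleness on the base
-/

set_option autoImplicit false
set_option linter.unusedSectionVars false

namespace Pool.Agent.HF.CV

open Pool.Agent.Helper38.Scroll Pool.Agent.FJ MvPolynomial

variable {k K : Type} [Field k] [Field K] [Algebra (RatFunc k) K] [Algebra k K]
  [IsScalarTower k (RatFunc k) K] {n : ℕ} {g : Option k → Matrix (Fin n) (Fin n) K}

/-- A constant multiple of a section. -/
noncomputable def cmul {m : ℕ} {τ : Option k → K} (α : k) (s : GlobalSection g m τ) :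
    GlobalSection g m τ where
  form := C (algebraMap k K α) * s.form
  loc a := C (algebraMap k (Curve.regularRing k K a) α) * s.loc a
  homogeneous a := by
    have h1 := (isHomogeneous_C (Fin n) (algebraMap k (Curve.regularRing k K a) α)).mul
      (s.homogeneous a)
    rwa [zero_add] at h1
  eq a := by
    rw [s.eq a, map_mul, map_C, map_mul, MvPolynomial.aeval_C]
    have h1 : algebraMap K (MvPolynomial (Fin n) K)
        ((algebraMap (Curve.regularRing k K a) K) ((algebraMap k (Curve.regularRing k K a)) α)) =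
        C (algebraMap k K α) := rfl
    rw [h1]
    ring

lemma cmul_value {m : ℕ} {τ : Option k → K} (α : k) (s : GlobalSection g m τ) {R : Type}
    [CommRing R] [Algebra k R] {a : Option k} (θ : Curve.PointOver k K a R) (ℓ : Fin n → R) :
    (cmul α s).value θ ℓ = algebraMap k R α * s.value θ ℓ := by
  have h1 : (cmul α s).value θ ℓ = eval₂ (θ : Curve.regularRing k K a →+* R) ℓ
    (C (algebraMap k (Curve.regularRing k K a) α) * s.loc a) := rfl
  rw [h1, eval₂_mul, eval₂_C]
  congr 1
  exact θ.commutes α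

lemma cmul_zero_value {m : ℕ} {τ : Option k → K} (s : GlobalSection g m τ) {R : Type}
    [CommRing R] [Algebra k R] {a : Option k} (θ : Curve.PointOver k K a R) (ℓ : Fin n → R) :
    (cmul 0 s).value θ ℓ = 0 := by
  rw [cmul_value, map_zero, zero_mul]

/-- The zero section. -/
noncomputable def zeroSec (m : ℕ) (τ : Option k → K) : GlobalSection g m τ where
  form := 0
  loc _ := 0
  homogeneous _ := isHomogeneous_zero _ _ _
  eq a := by rw [map_zero, map_zero, mul_zero]

lemma zeroSec_value {m : ℕ} {τ : Option k → K} {R : Type}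
    [CommRing R] [Algebra k R] {a : Option k} (θ : Curve.PointOver k K a R) (ℓ : Fin n → R) :
    (zeroSec (g := g) m τ).value θ ℓ = 0 := by
  change eval₂ (θ : Curve.regularRing k K a →+* R) ℓ 0 = 0
  exact eval₂_zero _ _

/-- The section `u + v w` on the cover of degree `D + 2`. -/
noncomputable def pair {δ D : ℕ} {lam : Option k → K} {m : ℕ} {β : Option k → K}
    (u : GlobalSection g (m + (D + 1) * δ) (fun a => β a * lam a ^ (D + 1)))
    (v : GlobalSection g (m + D * δ) (fun a => β a * lam a ^ D)) :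
    CoverSection g δ (D + 2) lam m β :=
  Function.update (Function.update (fun _ => zeroSec _ _) (Fin.last D).castSucc v)
    (Fin.last (D + 1)) u

lemma pair_value {δ D : ℕ} {lam : Option k → K} {m : ℕ} {β : Option k → K}
    (u : GlobalSection g (m + (D + 1) * δ) (fun a => β a * lam a ^ (D + 1)))
    (v : GlobalSection g (m + D * δ) (fun a => β a * lam a ^ D)) {R : Type}
    [CommRing R] [Algebra k R] {c : Option k} (θ : Curve.PointOver k K c R) (ℓ : Fin n → R)
    (w : R) : (pair u v).value θ ℓ w = u.value θ ℓ + v.value θ ℓ * w := by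
  rw [CoverSection.value, Fin.sum_univ_castSucc]
  have h1 : pair u v (Fin.last (D + 1)) = u := Function.update_self _ _ _
  have h2 : ∀ j : Fin (D + 1), pair u v j.castSucc =
      Function.update (β := fun j : Fin (D + 2) =>
        GlobalSection g (m + j * δ) (fun a => β a * lam a ^ (j : ℕ)))
        (fun _ => zeroSec _ _) (Fin.last D).castSucc v j.castSucc := fun j =>
    Function.update_of_ne (Fin.castSucc_lt_last j).ne _ _
  rw [h1, Finset.sum_eq_single (Fin.last D)]
  · rw [h2, Function.update_self]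
    have e1 : D + 2 - 1 - ((Fin.last D).castSucc : ℕ) = 1 := by
      simp
    have e2 : D + 2 - 1 - (Fin.last (D + 1) : ℕ) = 0 := by
      simp
    rw [e1, e2, pow_one, pow_zero, mul_one, add_comm]
  · intro j _ hj
    rw [h2, Function.update_of_ne, zeroSec_value, zero_mul]
    intro h
    exact hj (Fin.castSucc_injective _ h)
  · intro h
    exact absurd (Finset.mem_univ _) h

/-- The value of a section at a `k[ε]`-valued point with zero tangent direction. -/
lemma value_snd {m : ℕ} {τ : Option k → K} (s : GlobalSection g m τ) {a : Option k}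
    {θ : Curve.PointOver k K a (DualNumber k)} {ℓ : Fin n → DualNumber k}
    (hθ : ∀ b, (θ b).snd = 0) {c : k} (hℓ : ∀ i, (ℓ i).snd = c * (ℓ i).fst) :
    (s.value θ ℓ).snd = m * c * (s.value θ ℓ).fst := by
  have h1 : s.value θ ℓ = ∑ d ∈ (s.loc a).support,
      θ ((s.loc a).coeff d) * ∏ i, ℓ i ^ d i := by
    change eval₂ (θ : Curve.regularRing k K a →+* DualNumber k) ℓ (s.loc a) = _
    rw [eval₂_eq']
    rfl
  have hmon : ∀ (f : Fin n → ℕ) (t : Finset (Fin n)),
      (∏ i ∈ t, ℓ i ^ f i).snd = (∑ i ∈ t, f i : ℕ) * c * (∏ i ∈ t, ℓ i ^ f i).fst := by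
    intro f t
    classical
    induction t using Finset.induction_on with
    | empty => simp
    | insert i t hi ih =>
      rw [Finset.prod_insert hi, Finset.sum_insert hi, TrivSqZeroExt.snd_mul,
        TrivSqZeroExt.fst_mul, ih]
      have h2 : (ℓ i ^ f i).snd = (f i : k) * c * (ℓ i ^ f i).fst := by
        induction f i with
        | zero => simp
        | succ e ihe =>
          rw [pow_succ, TrivSqZeroExt.snd_mul, TrivSqZeroExt.fst_mul, ihe, hℓ]
          simp only [smul_eq_mul, MulOpposite.smul_eq_mul_unop, MulOpposite.unop_op]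
          push_cast
          ring
      rw [h2]
      simp only [smul_eq_mul, MulOpposite.smul_eq_mul_unop, MulOpposite.unop_op]
      push_cast
      ring
  have hterm : ∀ d ∈ (s.loc a).support, (θ ((s.loc a).coeff d) * ∏ i, ℓ i ^ d i).snd =
      (m : k) * c * (θ ((s.loc a).coeff d) * ∏ i, ℓ i ^ d i).fst := by
    intro d hd
    have h2 : (∑ i, d i : ℕ) = m := by
      have h3 := s.homogeneous a (mem_support_iff.mp hd)
      rw [← h3, Finsupp.weight_apply, Finsupp.sum_fintype _ _ (fun i => by simp)]
      simp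
    rw [TrivSqZeroExt.snd_mul, TrivSqZeroExt.fst_mul, hmon, h2, hθ]
    simp only [smul_eq_mul, MulOpposite.smul_eq_mul_unop, MulOpposite.unop_op]
    ring
  rw [h1]
  have h4 : (∑ d ∈ (s.loc a).support, θ ((s.loc a).coeff d) * ∏ i, ℓ i ^ d i).snd =
      ∑ d ∈ (s.loc a).support, (θ ((s.loc a).coeff d) * ∏ i, ℓ i ^ d i).snd :=
    map_sum (TrivSqZeroExt.sndHom k k) _ _
  have h5 : (∑ d ∈ (s.loc a).support, θ ((s.loc a).coeff d) * ∏ i, ℓ i ^ d i).fst =
      ∑ d ∈ (s.loc a).support, (θ ((s.loc a).coeff d) * ∏ i, ℓ i ^ d i).fst :=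
    map_sum (TrivSqZeroExt.fstHom k k k) _ _
  rw [h4, h5, Finset.mul_sum]
  exact Finset.sum_congr rfl hterm

lemma eval₂_smul_homogeneous {R S : Type} [CommRing R] [CommRing S] {m : ℕ}
    {P : MvPolynomial (Fin n) R} (hP : P.IsHomogeneous m) (f : R →+* S) (t : S) (v : Fin n → S) :
    eval₂ f (t • v) P = t ^ m * eval₂ f v P := by
  rw [eval₂_eq', eval₂_eq', Finset.mul_sum]
  refine Finset.sum_congr rfl fun d hd => ?_
  have h2 : (∑ i, d i : ℕ) = m := by
    have h3 := hP (mem_support_iff.mp hd)
    rw [← h3, Finsupp.weight_apply, Finsupp.sum_fintype _ _ (fun i => by simp)]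
    simp
  simp only [Pi.smul_apply, smul_eq_mul, mul_pow, Finset.prod_mul_distrib,
    Finset.prod_pow_eq_pow_sum, h2]
  ring

/-- At the `k[ε]`-valued points some section does not vanish. -/
lemma exists_fst_ne_zero {m : ℕ} {τ : Option k → K} (hs : FJ.NoCommonZero g m τ) {a : Option k}
    (θ : Curve.PointOver k K a (DualNumber k)) {ℓ : Fin n → DualNumber k}
    (hℓ : ∃ i, (ℓ i).fst ≠ 0) : ∃ s : GlobalSection g m τ, (s.value θ ℓ).fst ≠ 0 := by
  set v : Fin n → k := fun i => (ℓ i).fst with hv
  have hv0 : v ≠ 0 := by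
    obtain ⟨i, hi⟩ := hℓ
    intro h
    exact hi (congrFun h i)
  set θ₀ : Curve.PointOver k K a k := (TrivSqZeroExt.fstHom k k k).comp θ with hθ₀
  obtain ⟨s, hs⟩ := hs ⟨a, θ₀⟩ (Projectivization.mk k v hv0)
  refine ⟨s, ?_⟩
  obtain ⟨t, ht⟩ := Projectivization.exists_smul_eq_mk_rep k v hv0
  have h1 : s.value θ₀ (Projectivization.mk k v hv0).rep = (t : k) ^ m * s.value θ₀ v := by
    rw [← ht]
    exact eval₂_smul_homogeneous (s.homogeneous a) _ (t : k) v
  have h2 : (s.value θ ℓ).fst = s.value θ₀ v := by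
    change (TrivSqZeroExt.fstHom k k k : DualNumber k →+* k)
      (eval₂ (θ : Curve.regularRing k K a →+* DualNumber k) ℓ (s.loc a)) = _
    rw [hom_eval₂]
    rfl
  rw [h2]
  intro h3
  apply hs
  change s.value θ₀ (Projectivization.mk k v hv0).rep = 0
  rw [h1, h3, mul_zero]

/-- Very ampleness on the cover. -/
theorem isVeryAmple_cover {δ D : ℕ} {lam : Option k → K}
    (a : Equation g δ (D + 2) lam) {m : ℕ} {β : Option k → K}
    (hu : FJ.IsVeryAmple g (m + (D + 1) * δ) (fun a => β a * lam a ^ (D + 1)))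
    (hv : FJ.NoCommonZero g (m + D * δ) (fun a => β a * lam a ^ D)) :
    IsVeryAmple a m β := by
  refine ⟨?_, ?_, ?_⟩
  · intro p x w _
    obtain ⟨u, hu1⟩ := hu.1 p x
    refine ⟨pair u (zeroSec _ _), ?_⟩
    rw [pair_value, zeroSec_value, zero_mul, add_zero]
    exact hu1
  · intro p p' x x' w w' _ _ hne
    by_cases hpx : (p, x) = (p', x')
    · obtain ⟨rfl, rfl⟩ := Prod.mk.inj hpx
      have hw : w ≠ w' := by
        rintro rfl
        exact hne rfl
      obtain ⟨u, hu1⟩ := hu.1 p x
      obtain ⟨v, hv1⟩ := hv p x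
      refine ⟨pair (cmul (-(v.value p.2 x.rep * w)) u) (cmul (u.value p.2 x.rep) v), ?_, ?_⟩
      · rw [pair_value, cmul_value, cmul_value]
        simp only [Algebra.algebraMap_self, RingHom.id_apply]
        ring
      · rw [pair_value, cmul_value, cmul_value]
        simp only [Algebra.algebraMap_self, RingHom.id_apply]
        have h1 : -(v.value p.2 x.rep * w) * u.value p.2 x.rep +
            u.value p.2 x.rep * v.value p.2 x.rep * w' =
            u.value p.2 x.rep * v.value p.2 x.rep * (w' - w) := by ring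
        rw [h1]
        exact mul_ne_zero (mul_ne_zero hu1 hv1) (sub_ne_zero.mpr hw.symm)
    · obtain ⟨u, hu1, hu2⟩ := hu.2.1 p p' x x' hpx
      refine ⟨pair u (zeroSec _ _), ?_, ?_⟩
      · rw [pair_value, zeroSec_value, zero_mul, add_zero]
        exact hu1
      · rw [pair_value, zeroSec_value, zero_mul, add_zero]
        exact hu2
  · intro c θ ℓ w hℓ _ hzt
    by_cases hz : Curve.IsZeroTangent θ ℓ
    · obtain ⟨hθ, e, he⟩ := hz
      have hw : w.snd ≠ δ * e * w.fst := fun h => hzt ⟨hθ, e, he, h⟩
      obtain ⟨v, hv1⟩ := exists_fst_ne_zero hv θ hℓ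
      obtain ⟨u, hu1⟩ := exists_fst_ne_zero hu.1 θ hℓ
      have hus := value_snd u hθ he
      have hvs := value_snd v hθ he
      set u0 := (u.value θ ℓ).fst with hu0
      set v0 := (v.value θ ℓ).fst with hv0
      refine ⟨pair (cmul (-(v0 * w.fst)) u) (cmul u0 v), ?_, ?_⟩
      · rw [pair_value, cmul_value, cmul_value]
        have e1 : ∀ t : k, algebraMap k (DualNumber k) t = TrivSqZeroExt.inl t := fun t => rfl
        rw [e1, e1]
        simp only [TrivSqZeroExt.fst_add, TrivSqZeroExt.fst_mul, TrivSqZeroExt.fst_inl]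
        rw [← hu0, ← hv0]
        ring
      · rw [pair_value, cmul_value, cmul_value]
        have e1 : ∀ t : k, algebraMap k (DualNumber k) t = TrivSqZeroExt.inl t := fun t => rfl
        rw [e1, e1]
        simp only [TrivSqZeroExt.snd_add, TrivSqZeroExt.snd_mul, TrivSqZeroExt.fst_mul,
          TrivSqZeroExt.fst_inl, TrivSqZeroExt.snd_inl, smul_eq_mul,
          MulOpposite.smul_eq_mul_unop, MulOpposite.unop_op]
        rw [← hu0, ← hv0, hus, hvs]
        have h1 : u0 * v0 * (w.snd - δ * e * w.fst) ≠ 0 :=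
          mul_ne_zero (mul_ne_zero hu1 hv1) (sub_ne_zero.mpr hw)
        convert h1 using 1
        push_cast
        ring
    · obtain ⟨u, hu1, hu2⟩ := hu.2.2 c θ ℓ hℓ hz
      refine ⟨pair u (zeroSec _ _), ?_, ?_⟩
      · rw [pair_value, zeroSec_value, zero_mul, add_zero]
        exact hu1
      · rw [pair_value, zeroSec_value, zero_mul, add_zero]
        exact hu2

end Pool.Agent.HF.CV
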