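import Pool.Agent.HF.MAIN

/-!
# Inequalities for sections of `O(m) ⊗ π^* M` and a quotient bundle of least slope
-/

set_option autoImplicit false
set_option linter.unusedSectionVars false

namespace Pool.Agent.HF.CV

open Pool.Agent.Helper38.Scroll Matrix Module Pool.Agent.FJ MvPolynomial Pool.Agent.HF

section

variable {K : Type} [Field K] {N q D : ℕ}

lemma bigTheta_ne_zero' [CharZero K] {P : MvPolynomial (Fin (N + 1)) K}
    (hP : P.IsHomogeneous (D + 1))
    {A : Matrix (Fin (q + 1)) (Fin (N + 1)) K} {R : Matrix (Fin (N + 1)) (Fin (q + 1)) K}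
    (hAR : A * R = 1)
    (hs : ∀ η : Fin (q + 1) → K, η ≠ 0 → ∃ i, eval (Aᵀ *ᵥ η) (pderiv i P) ≠ 0) :
    bigTheta (D := D) P A ≠ 0 := by
  obtain ⟨c', hc', hc'2⟩ := cross_single (R := K) (0 : Fin (q + 1))
  set ξ : Fin (N + 1) → K := Aᵀ *ᵥ (c' • (Pi.single 0 1 : Fin (q + 1) → K)) with hξ
  obtain ⟨i, hi⟩ := hs (c' • (Pi.single 0 1 : Fin (q + 1) → K)) (by
    intro h
    have h2 := congrFun h 0
    simp only [Pi.zero_apply, Pi.smul_apply, Pi.single_eq_same, smul_eq_mul, mul_one] at h2
    exact hc'.ne_zero h2)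
  rw [← hξ] at hi
  obtain ⟨c, hc, hc2⟩ := cross_single (R := K) i
  let x : (Σ t : Option (Fin D), Fin (t.elim N fun _ => q)) → Fin (N + 1) → K := fun p =>
    match p with
    | ⟨none, l⟩ => Pi.single (i.succAbove l) 1
    | ⟨some _, l⟩ => R *ᵥ Pi.single ((0 : Fin (q + 1)).succAbove l) 1
  have h1 : slotVal A x none = c • (Pi.single i 1 : Fin (N + 1) → K) := by
    rw [slotVal_none]
    exact hc2
  have h2 : ∀ s, slotVal A x (some s) = ξ := by
    intro s
    rw [slotVal_some, hξ, ← hc'2]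
    congr 2
    funext l
    change A *ᵥ (R *ᵥ _) = _
    rw [mulVec_mulVec, hAR, one_mulVec]
  have h3 : bigTheta P A x = (D.factorial : K) * (c * eval ξ (pderiv i P)) := by
    rw [bigTheta_apply]
    have h4 : (fun t => slotVal A x (finSuccEquivLast t)) =
        (Fin.snoc (fun _ => ξ) (c • (Pi.single i 1 : Fin (N + 1) → K)) :
          Fin (D + 1) → Fin (N + 1) → K) := by
      funext t
      refine Fin.lastCases ?_ (fun s => ?_) t
      · rw [finSuccEquivLast_last, Fin.snoc_last, h1]
      · rw [finSuccEquivLast_castSucc, Fin.snoc_castSucc, h2]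
    rw [h4, polar_const ξ _ hP, map_smul]
    congr 1
    rw [LinearMap.smul_apply, smul_eval]
    congr 1
    rw [Dl_apply, Finset.sum_eq_single i]
    · rw [Pi.single_eq_same, one_smul]
    · intro j _ hj
      rw [Pi.single_eq_of_ne hj, zero_smul]
    · intro h
      exact absurd (Finset.mem_univ i) h
  intro h
  have h5 : bigTheta P A x = 0 := by rw [h]; rfl
  rw [h3] at h5
  have h6 : (D.factorial : K) ≠ 0 := by
    exact_mod_cast Nat.factorial_ne_zero D
  exact (mul_ne_zero h6 (mul_ne_zero hc.ne_zero hi)) h5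

/-- The multilinear form of `P` restricted to the quotient given by `A`. -/
noncomputable def smallTheta (m : ℕ) (P : MvPolynomial (Fin (N + 1)) K)
    (A : Matrix (Fin (q + 1)) (Fin (N + 1)) K) :
    MultilinearMap K (fun _ : Σ _ : Fin m, Fin q => Fin (N + 1) → K) K :=
  (polar m P).compMultilinearMap fun _ =>
    ((Matrix.mulVecLin Aᵀ).compMultilinearMap (cross K q)).compLinearMap fun _ => A.mulVecLin

lemma smallTheta_apply {m : ℕ} (P : MvPolynomial (Fin (N + 1)) K)
    (A : Matrix (Fin (q + 1)) (Fin (N + 1)) K)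
    (x : (Σ _ : Fin m, Fin q) → Fin (N + 1) → K) :
    smallTheta m P A x = polar m P (fun t => Aᵀ *ᵥ cross K q (fun l => A *ᵥ x ⟨t, l⟩)) := rfl

lemma smallTheta_ne_zero [CharZero K] {m : ℕ} {P : MvPolynomial (Fin (N + 1)) K}
    (hP : P.IsHomogeneous m)
    {A : Matrix (Fin (q + 1)) (Fin (N + 1)) K} {R : Matrix (Fin (N + 1)) (Fin (q + 1)) K}
    (hAR : A * R = 1) {η : Fin (q + 1) → K} (hη : eval (Aᵀ *ᵥ η) P ≠ 0) :
    smallTheta m P A ≠ 0 := by
  set G : MultilinearMap K (fun _ : Fin m => Fin (q + 1) → K) K :=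
    (polar m P).compLinearMap fun _ => Matrix.mulVecLin Aᵀ with hG
  have hGa : ∀ v, G v = polar m P (fun t => Aᵀ *ᵥ v t) := fun v => rfl
  have hG0 : G ≠ 0 := by
    intro h
    have h1 : G (fun _ => η) = 0 := by rw [h]; rfl
    rw [hGa, polar_apply] at h1
    have h2 : (List.ofFn fun _ : Fin m => Dl (Aᵀ *ᵥ η)).prod =
        (Dl (Aᵀ *ᵥ η) : Module.End K (MvPolynomial (Fin (N + 1)) K)) ^ m := by
      simp
    rw [h2, coeff_pow_Dl _ hP] at h1
    have h3 : (m.factorial : K) ≠ 0 := by exact_mod_cast m.factorial_ne_zero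
    exact mul_ne_zero h3 hη h1
  obtain ⟨v, hv⟩ : ∃ v : Fin m → Fin (q + 1), G (fun t => Pi.single (v t) 1) ≠ 0 := by
    by_contra hcon
    push Not at hcon
    apply hG0
    refine Module.Basis.ext_multilinear (fun _ => Pi.basisFun K (Fin (q + 1))) fun v => ?_
    simp only [Pi.basisFun_apply]
    rw [hcon v]
    rfl
  choose c hc hc2 using fun t : Fin m => cross_single (R := K) (v t)
  intro h0
  have h1 : smallTheta m P A (fun p => R *ᵥ Pi.single ((v p.1).succAbove p.2) 1) = 0 := by
    rw [h0]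
    rfl
  rw [smallTheta_apply] at h1
  have h2 : (fun t => Aᵀ *ᵥ cross K q (fun l => A *ᵥ (R *ᵥ Pi.single ((v t).succAbove l) 1))) =
      fun t => c t • (Aᵀ *ᵥ (Pi.single (v t) 1 : Fin (q + 1) → K)) := by
    funext t
    have h3 : (fun l => A *ᵥ (R *ᵥ Pi.single ((v t).succAbove l) 1)) =
        fun l : Fin q => (Pi.single ((v t).succAbove l) 1 : Fin (q + 1) → K) := by
      funext l
      rw [mulVec_mulVec, hAR, one_mulVec]
    rw [h3, hc2 t, mulVec_smul]
  rw [h2, MultilinearMap.map_smul_univ, smul_eq_mul, mul_eq_zero] at h1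
  rcases h1 with h1 | h1
  · exact Finset.prod_ne_zero_iff.mpr (fun t _ => (hc t).ne_zero) h1
  · exact hv h1

end

section

variable {k K : Type} [Field k] [Field K] [Algebra (RatFunc k) K] [Algebra k K]
  [IsScalarTower k (RatFunc k) K]

/-- The local value of a slot. -/
lemma slot_local {N q : ℕ} {a : Option k} {g : Matrix (Fin (N + 1)) (Fin (N + 1)) K}
    {h : Matrix (Fin (q + 1)) (Fin (q + 1)) K} {A : Matrix (Fin (q + 1)) (Fin (N + 1)) K}
    (hgh : Curve.lattice a h = (fun v => A *ᵥ v) '' Curve.lattice a g)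
    (x : Fin q → Fin (N + 1) → K) (hx : ∀ l, x l ∈ Curve.lattice a g) :
    ∃ ρ : Fin (N + 1) → K, (∀ i, Curve.Regular a (ρ i)) ∧
      gᵀ *ᵥ (Aᵀ *ᵥ cross K q (fun l => A *ᵥ x l)) = h.det • ρ := by
  have h2 : ∀ l : Fin q, A *ᵥ x l ∈ Curve.lattice a h := by
    intro l
    rw [hgh]
    exact ⟨_, hx l, rfl⟩
  choose c hc hc2 using h2
  have h3 : ∀ j : Fin (N + 1), A *ᵥ (g *ᵥ Pi.single j 1) ∈ Curve.lattice a h := by
    intro j
    rw [hgh]
    refine ⟨g *ᵥ Pi.single j 1, ⟨Pi.single j 1, ?_, rfl⟩, rfl⟩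
    intro i
    by_cases hi : i = j
    · subst hi
      rw [Pi.single_eq_same]
      exact one_mem (Curve.regularRing k K a)
    · rw [Pi.single_eq_of_ne hi]
      exact zero_mem (Curve.regularRing k K a)
  choose b hb hb2 using h3
  have h4 : A * g = h * Matrix.of (fun i j => b j i) := by
    have h5 : ∀ j, (A * g) *ᵥ Pi.single j 1 = (h * Matrix.of (fun i j => b j i)) *ᵥ
        (Pi.single j 1 : Fin (N + 1) → K) := by
      intro j
      rw [← mulVec_mulVec, ← mulVec_mulVec, ← hb2]
      congr 1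
      funext i
      simp
    exact Matrix.ext_of_mulVec_single h5
  refine ⟨(Matrix.of (fun i j => b j i))ᵀ *ᵥ cross K q c,
    mulVec_regular (fun i j => hb i j) (cross_regular hc), ?_⟩
  have h1 : (fun l => A *ᵥ x l) = fun l => h *ᵥ c l := by
    funext l
    exact (hc2 l).symm
  rw [h1, mulVec_mulVec, ← Matrix.transpose_mul, h4, Matrix.transpose_mul, ← mulVec_mulVec,
    transpose_mulVec_cross, mulVec_smul]

/-- The local values of the multilinear form. -/
lemma smallTheta_local {N q m : ℕ} {a : Option k} {g : Matrix (Fin (N + 1)) (Fin (N + 1)) K}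
    {h : Matrix (Fin (q + 1)) (Fin (q + 1)) K} {A : Matrix (Fin (q + 1)) (Fin (N + 1)) K}
    (hgh : Curve.lattice a h = (fun v => A *ᵥ v) '' Curve.lattice a g) {τ : K}
    (P : MvPolynomial (Fin (N + 1)) (Curve.regularRing k K a))
    (x : (Σ _ : Fin m, Fin q) → Fin (N + 1) → K)
    (hx : ∀ p, x p ∈ Curve.lattice a g) :
    ∃ c, Curve.Regular a c ∧
      smallTheta m (C τ * sub g (map (algebraMap (Curve.regularRing k K a) K) P)) A x =
        (τ * h.det ^ m) * c := by
  choose ρ hρ hρ2 using fun t : Fin m => slot_local hgh (fun l => x ⟨t, l⟩) (fun l => hx ⟨t, l⟩)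
  refine ⟨polar m (map (algebraMap (Curve.regularRing k K a) K) P) ρ,
    polar_regular P hρ, ?_⟩
  rw [smallTheta_apply, polar_C_mul, polar_sub]
  have h6 : (fun t => gᵀ *ᵥ (Aᵀ *ᵥ cross K q (fun l => A *ᵥ x ⟨t, l⟩))) =
      fun t : Fin m => h.det • ρ t := by
    funext t
    exact hρ2 t
  rw [h6, MultilinearMap.map_smul_univ, Finset.prod_const, Finset.card_univ, Fintype.card_fin,
    smul_eq_mul]
  ring

end

variable {k K : Type} [Field k] [Field K] [Algebra (RatFunc k) K] [Algebra k K]
  [IsScalarTower k (RatFunc k) K] [IsAlgClosed k] [CharZero k] [FiniteDimensional (RatFunc k) K]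

/-- **The key inequality**, with a weaker hypothesis. -/
theorem key_ineq' {N q D : ℕ} {g : Option k → Matrix (Fin (N + 1)) (Fin (N + 1)) K}
    (hg : Curve.IsBundle g) {τ : Option k → K} (hτ : IsLineBundle τ)
    (F : GlobalSection g (D + 1) τ)
    {x : ℚ} (hx : ∀ s : ℕ, 0 < s → ∀ A : Matrix (Fin s) (Fin (N + 1)) K, A.rank = s →
      ∀ h : Option k → Matrix (Fin s) (Fin s) K, Curve.IsQuotientBundle g A h →
        x * s ≤ Curve.degree h)
    {A : Matrix (Fin (q + 1)) (Fin (N + 1)) K} (hA : A.rank = q + 1)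
    (hF : ∀ η : Fin (q + 1) → K, η ≠ 0 → ∃ i, eval (Aᵀ *ᵥ η) (pderiv i F.form) ≠ 0)
    {h : Option k → Matrix (Fin (q + 1)) (Fin (q + 1)) K} (hh : Curve.IsQuotientBundle g A h)
    (hxq : (Curve.degree h : ℚ) = x * (q + 1)) :
    ((N : ℚ) - D) * x ≤ Curve.degree g + lineDegree τ := by
  have : CharZero K := charZero_of_injective_algebraMap (algebraMap k K).injective
  obtain ⟨R, hAR⟩ := exists_right_inv hA
  have hg' : IsBundle g := light_isBundle hg
  have hh' : IsQuotientBundle g A h := light_quotient' hh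
  have hhb : IsBundle h := quotient_isBundle hg' hAR hh'
  set ν : Option k → K := fun a => τ a * ((g a).det * (h a).det ^ D) with hν
  have hν0 : ∀ a, ν a ≠ 0 := fun a =>
    mul_ne_zero (hτ.1 a) (mul_ne_zero (hg'.1 a) (pow_ne_zero _ (hhb.1 a)))
  have hfin : {a | ¬ (Curve.Regular a (ν a) ∧ Curve.Regular a (ν a)⁻¹)}.Finite := by
    refine ((hτ.2.union hg'.2).union hhb.2).subset ?_
    intro a ha
    by_contra hcon
    simp only [Set.mem_union, Set.mem_ofPred_eq, not_or, not_not] at hcon
    obtain ⟨⟨h1, h2⟩, h3⟩ := hcon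
    apply ha
    have h5 := mem_regRing_inv_of_lattice_eq (hg'.1 a) h2
    have h6 := mem_regRing_inv_of_lattice_eq (hhb.1 a) h3
    have h1' : τ a ∈ regRing k K a ∧ (τ a)⁻¹ ∈ regRing k K a := h1
    constructor
    · change ν a ∈ regRing k K a
      exact Subalgebra.mul_mem _ h1'.1 (Subalgebra.mul_mem _ h5.1 (Subalgebra.pow_mem _ h6.1 _))
    · change (ν a)⁻¹ ∈ regRing k K a
      rw [hν]
      simp only [mul_inv, ← inv_pow]
      exact Subalgebra.mul_mem _ h1'.2 (Subalgebra.mul_mem _ h5.2 (Subalgebra.pow_mem _ h6.2 _))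
  have hslope := S.slope_multilinear (h := g) (μ := x) hg hx (bigTheta (D := D) F.form A)
    (bigTheta_ne_zero' (form_isHomogeneous F) hAR hF) hν0 hfin ?_
  rotate_left
  · intro a v hv
    have h1 := bigTheta_local (hh a).2 (τ := τ a) (F.loc a) v hv
    have h2 : F.form = C (τ a) * sub (g a)
      (map (algebraMap (Curve.regularRing k K a) K) (F.loc a)) := F.eq a
    rw [h2]
    exact h1
  have hcard : Fintype.card (Σ t : Option (Fin D), Fin (t.elim N fun _ => q)) = N + D * q := by
    have e1 : Fintype.card (Fin ((none : Option (Fin D)).elim N fun _ => q)) = N :=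
      Fintype.card_fin _
    have e2 : ∀ s : Fin D, Fintype.card (Fin ((some s : Option (Fin D)).elim N fun _ => q)) = q :=
      fun s => Fintype.card_fin _
    rw [Fintype.card_sigma, Fintype.sum_option, e1, Finset.sum_congr rfl (fun s _ => e2 s),
      Finset.sum_const, Finset.card_univ, Fintype.card_fin, smul_eq_mul]
  rw [hcard] at hslope
  have hsum : ∑ᶠ a, Curve.ordOver a (ν a) = ∑ᶠ a, Curve.ordOver a (τ a) +
      (∑ᶠ a, Curve.ordOver a (g a).det + D * ∑ᶠ a, Curve.ordOver a (h a).det) := by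
    simp only [light_ordOver]
    have h1 : ∀ a, ordOver a (ν a) = ordOver a (τ a) +
        (ordOver a (g a).det + D * ordOver a (h a).det) := by
      intro a
      rw [hν]
      simp only
      rw [ordOver_mul a (hτ.1 a) (mul_ne_zero (hg'.1 a) (pow_ne_zero _ (hhb.1 a))),
        ordOver_mul a (hg'.1 a) (pow_ne_zero _ (hhb.1 a)), ordOver_pow a (hhb.1 a)]
    have e1 := lgt_support hτ
    have e2 := support_of_bundle hg'
    have e3 := support_of_bundle hhb
    have e4 : (Function.support fun a => (D : ℤ) * ordOver a (h a).det).Finite :=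
      e3.subset fun a ha => by
        rw [Function.mem_support] at ha ⊢
        exact right_ne_zero_of_mul ha
    rw [finsum_congr h1, finsum_add_distrib e1 ((e2.union e4).subset
      (Function.support_add _ _)), finsum_add_distrib e2 e4, mul_finsum]
  have h3 : -∑ᶠ a, Curve.ordOver a (ν a) =
      lineDegree τ + (Curve.degree g + D * Curve.degree h) := by
    rw [hsum, lineDegree, Curve.degree, Curve.degree]
    ring
  rw [h3] at hslope
  push_cast at hslope
  rw [hxq] at hslope
  linarith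

/-- If a section of `O(m) ⊗ π^* M` does not vanish on `ℙ(Q)`, where `Q` is a quotient bundle of
least slope `x`, then `m x + deg M ≥ 0`. -/
theorem section_slope {N q m : ℕ} {g : Option k → Matrix (Fin (N + 1)) (Fin (N + 1)) K}
    (hg : Curve.IsBundle g) {τ : Option k → K} (hτ : IsLineBundle τ)
    (F : GlobalSection g m τ)
    {x : ℚ} (hx : ∀ s : ℕ, 0 < s → ∀ A : Matrix (Fin s) (Fin (N + 1)) K, A.rank = s →
      ∀ h : Option k → Matrix (Fin s) (Fin s) K, Curve.IsQuotientBundle g A h →
        x * s ≤ Curve.degree h)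
    {A : Matrix (Fin (q + 1)) (Fin (N + 1)) K} (hA : A.rank = q + 1)
    {η : Fin (q + 1) → K} (hη : eval (Aᵀ *ᵥ η) F.form ≠ 0)
    {h : Option k → Matrix (Fin (q + 1)) (Fin (q + 1)) K} (hh : Curve.IsQuotientBundle g A h)
    (hxq : (Curve.degree h : ℚ) = x * (q + 1)) :
    0 ≤ (m : ℚ) * x + lineDegree τ := by
  have : CharZero K := charZero_of_injective_algebraMap (algebraMap k K).injective
  obtain ⟨R, hAR⟩ := exists_right_inv hA
  have hg' : IsBundle g := light_isBundle hg
  have hh' : IsQuotientBundle g A h := light_quotient' hh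
  have hhb : IsBundle h := quotient_isBundle hg' hAR hh'
  set ν : Option k → K := fun a => τ a * (h a).det ^ m with hν
  have hν0 : ∀ a, ν a ≠ 0 := fun a => mul_ne_zero (hτ.1 a) (pow_ne_zero _ (hhb.1 a))
  have hfin : {a | ¬ (Curve.Regular a (ν a) ∧ Curve.Regular a (ν a)⁻¹)}.Finite := by
    refine (hτ.2.union hhb.2).subset ?_
    intro a ha
    by_contra hcon
    simp only [Set.mem_union, Set.mem_ofPred_eq, not_or, not_not] at hcon
    obtain ⟨h1, h3⟩ := hcon
    apply ha
    have h6 := mem_regRing_inv_of_lattice_eq (hhb.1 a) h3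
    have h1' : τ a ∈ regRing k K a ∧ (τ a)⁻¹ ∈ regRing k K a := h1
    constructor
    · change ν a ∈ regRing k K a
      exact Subalgebra.mul_mem _ h1'.1 (Subalgebra.pow_mem _ h6.1 _)
    · change (ν a)⁻¹ ∈ regRing k K a
      rw [hν]
      simp only [mul_inv, ← inv_pow]
      exact Subalgebra.mul_mem _ h1'.2 (Subalgebra.pow_mem _ h6.2 _)
  have hslope := S.slope_multilinear (h := g) (μ := x) hg hx (smallTheta m F.form A)
    (smallTheta_ne_zero (form_isHomogeneous F) hAR hη) hν0 hfin ?_
  rotate_left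
  · intro a v hv
    have h1 := smallTheta_local (hh a).2 (τ := τ a) (F.loc a) v hv
    have h2 : F.form = C (τ a) * sub (g a)
      (map (algebraMap (Curve.regularRing k K a) K) (F.loc a)) := F.eq a
    rw [h2]
    exact h1
  have hcard : Fintype.card (Σ _ : Fin m, Fin q) = m * q := by
    rw [Fintype.card_sigma, Finset.sum_const, Finset.card_univ, Fintype.card_fin, smul_eq_mul,
      Fintype.card_fin]
  rw [hcard] at hslope
  have hsum : ∑ᶠ a, Curve.ordOver a (ν a) = ∑ᶠ a, Curve.ordOver a (τ a) +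
      m * ∑ᶠ a, Curve.ordOver a (h a).det := by
    simp only [light_ordOver]
    have h1 : ∀ a, ordOver a (ν a) = ordOver a (τ a) + m * ordOver a (h a).det := by
      intro a
      rw [hν]
      simp only
      rw [ordOver_mul a (hτ.1 a) (pow_ne_zero _ (hhb.1 a)), ordOver_pow a (hhb.1 a)]
    have e1 := lgt_support hτ
    have e3 := support_of_bundle hhb
    have e4 : (Function.support fun a => (m : ℤ) * ordOver a (h a).det).Finite :=
      e3.subset fun a ha => by
        rw [Function.mem_support] at ha ⊢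
        exact right_ne_zero_of_mul ha
    rw [finsum_congr h1, finsum_add_distrib e1 e4, mul_finsum]
  have h3 : -∑ᶠ a, Curve.ordOver a (ν a) = lineDegree τ + m * Curve.degree h := by
    rw [hsum, lineDegree, Curve.degree]
    ring
  rw [h3] at hslope
  push_cast at hslope
  rw [hxq] at hslope
  linarith

end Pool.Agent.HF.CV
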