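import Pool.Agent.HF.CV.KEY
import Pool.Agent.HF.CV.COV

/-!
# Finite covers of projective bundles over curves: the main theorem
-/

set_option autoImplicit false
set_option linter.unusedSectionVars false

namespace Pool.Agent.HF.CV

open Pool.Agent.Helper38.Scroll Matrix Module Pool.Agent.FJ MvPolynomial Pool.Agent.HF

variable {k K : Type} [Field k] [Field K] [Algebra (RatFunc k) K] [Algebra k K]
  [IsScalarTower k (RatFunc k) K] [IsAlgClosed k] [CharZero k] [FiniteDimensional (RatFunc k) K]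

lemma isLineBundle_mul {β γ : Option k → K} (hβ : IsLineBundle β) (hγ : IsLineBundle γ) :
    IsLineBundle (fun a => β a * γ a) := by
  refine ⟨fun a => mul_ne_zero (hβ.1 a) (hγ.1 a), (hβ.2.union hγ.2).subset ?_⟩
  intro a ha
  by_contra hcon
  simp only [Set.mem_union, Set.mem_ofPred_eq, not_or, not_not] at hcon
  obtain ⟨h1, h2⟩ := hcon
  apply ha
  have h1' : β a ∈ regRing k K a ∧ (β a)⁻¹ ∈ regRing k K a := h1
  have h2' : γ a ∈ regRing k K a ∧ (γ a)⁻¹ ∈ regRing k K a := h2
  refine ⟨mul_mem h1'.1 h2'.1, ?_⟩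
  rw [mul_inv]
  exact mul_mem h1'.2 h2'.2

lemma lineDegree_mul {β γ : Option k → K} (hβ : IsLineBundle β) (hγ : IsLineBundle γ) :
    lineDegree (fun a => β a * γ a) = lineDegree β + lineDegree γ := by
  simp only [lineDegree, light_ordOver]
  have e1 : ∀ a, ordOver a (β a * γ a) = ordOver a (β a) + ordOver a (γ a) :=
    fun a => ordOver_mul a (hβ.1 a) (hγ.1 a)
  rw [finsum_congr e1, finsum_add_distrib (lgt_support hβ) (lgt_support hγ)]
  ring

lemma isLineBundle_pow {β : Option k → K} (hβ : IsLineBundle β) (j : ℕ) :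
    IsLineBundle (fun a => β a ^ j) := by
  refine ⟨fun a => pow_ne_zero _ (hβ.1 a), hβ.2.subset ?_⟩
  intro a ha h
  apply ha
  have h1' : β a ∈ regRing k K a ∧ (β a)⁻¹ ∈ regRing k K a := h
  refine ⟨pow_mem h1'.1 _, ?_⟩
  rw [← inv_pow]
  exact pow_mem h1'.2 _

lemma lineDegree_pow {β : Option k → K} (hβ : IsLineBundle β) (j : ℕ) :
    lineDegree (fun a => β a ^ j) = j * lineDegree β := by
  simp only [lineDegree, light_ordOver]
  have e1 : ∀ a, ordOver a (β a ^ j) = j * ordOver a (β a) :=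
    fun a => ordOver_pow a (hβ.1 a) j
  rw [finsum_congr e1, ← mul_finsum]
  ring

/-- The numerical condition. -/
lemma cover_numerics {n M r : ℕ} {T x y b E : ℚ} (hr : 0 < r) (hn : 1 ≤ n) (hM : n + 2 ≤ M)
    (hT : 0 ≤ T) (hkey : ((n : ℚ) - T) * x ≤ E) (hX : 0 < M * x + b) (hyx : x ≤ y)
    (hy : ((n : ℚ) + 2) / r ≤ M * y + b) :
    2 < r * (((M : ℚ) + T - n) * y + E + b) := by
  have hr' : (0 : ℚ) < r := by exact_mod_cast hr
  have hM' : (n : ℚ) + 2 ≤ M := by exact_mod_cast hM
  have hn' : (1 : ℚ) ≤ n := by exact_mod_cast hn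
  have hM0 : (0 : ℚ) < M := by linarith
  have hrY : (n : ℚ) + 2 ≤ r * (M * y + b) := by
    rw [div_le_iff₀ hr'] at hy
    linarith
  rcases le_or_gt (n : ℚ) T with hnd | hnd
  · have h1 : M * y + b ≤ ((M : ℚ) + T - n) * y + E + b := by
      nlinarith [mul_le_mul_of_nonneg_left hyx (sub_nonneg.mpr hnd)]
    have h2 := mul_le_mul_of_nonneg_left h1 hr'.le
    linarith
  · set t : ℚ := n - T with ht
    have ht0 : 0 < t := sub_pos.mpr hnd
    have h1 : ((M : ℚ) - t) * (M * y + b) + t * (M * x + b) ≤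
        M * (((M : ℚ) + T - n) * y + E + b) := by
      nlinarith [mul_le_mul_of_nonneg_left hkey hM0.le]
    have h2 : 0 < t * (M * x + b) := mul_pos ht0 hX
    have h3 : 0 ≤ (M : ℚ) - t := by linarith
    have h4 : ((M : ℚ) - t) * (n + 2) ≤ ((M : ℚ) - t) * (r * (M * y + b)) :=
      mul_le_mul_of_nonneg_left hrY h3
    have h5 : 2 * (M : ℚ) ≤ ((M : ℚ) - t) * (n + 2) := by nlinarith
    have h6 := mul_le_mul_of_nonneg_left h1 hr'.le
    have h7 : 0 < r * (t * (M * x + b)) := mul_pos hr' h2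
    have h8 : 2 * (M : ℚ) < M * (r * (((M : ℚ) + T - n) * y + E + b)) := by
      calc 2 * (M : ℚ) ≤ ((M : ℚ) - t) * (r * (M * y + b)) := h5.trans h4
        _ < r * (((M : ℚ) - t) * (M * y + b) + t * (M * x + b)) := by linarith
        _ ≤ r * (M * (((M : ℚ) + T - n) * y + E + b)) := h6
        _ = _ := by ring
    have h9 : (M : ℚ) * 2 < M * (r * (((M : ℚ) + T - n) * y + E + b)) := by linarith
    exact lt_of_mul_lt_mul_left h9 hM0.le

/-- **The key inequality for covers.** -/
theorem cover_key {n δ d q : ℕ} (hn : 1 ≤ n) (hδ : 1 ≤ δ) (hd : 2 ≤ d)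
    {g : Option k → Matrix (Fin n) (Fin n) K} (hg : Curve.IsBundle g) {lam : Option k → K}
    (hlam : IsLineBundle lam) {a : Equation g δ d lam} (ha : NoSingularRationalPoint a)
    {x : ℚ} (hx : ∀ s : ℕ, 0 < s → ∀ A : Matrix (Fin s) (Fin n) K, A.rank = s →
      ∀ h : Option k → Matrix (Fin s) (Fin s) K, Curve.IsQuotientBundle g A h →
        x * s ≤ Curve.degree h)
    {A : Matrix (Fin (q + 1)) (Fin n) K} (hA : A.rank = q + 1)
    {h : Option k → Matrix (Fin (q + 1)) (Fin (q + 1)) K} (hh : Curve.IsQuotientBundle g A h)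
    (hxq : (Curve.degree h : ℚ) = x * (q + 1)) {J : ℕ} (hJ : J ≤ d) :
    ((n : ℚ) - J * δ) * x ≤ Curve.degree g + J * lineDegree lam := by
  have hE : (n : ℚ) * x ≤ Curve.degree g := by
    have h1 := hx n (by omega) 1 (by rw [Matrix.rank_one, Fintype.card_fin]) g
      (light_quotient (isQuotientBundle_self (light_isBundle hg)))
    linarith
  obtain ⟨N, rfl⟩ : ∃ N, n = N + 1 := ⟨n - 1, by omega⟩
  by_cases hc : ∀ (i : Fin d) (η : Fin (q + 1) → K), eval (Aᵀ *ᵥ η) (a i).form = 0
  · -- all coefficients vanish on `ℙ(Q)`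
    obtain ⟨R, hAR⟩ := exists_right_inv hA
    have hd0 : 0 < d := by omega
    set i₀ : Fin d := ⟨d - 1, by omega⟩ with hi₀
    have hi₀v : (i₀ : ℕ) = d - 1 := rfl
    have key : ∀ η : Fin (q + 1) → K, η ≠ 0 →
        ∃ l, eval (Aᵀ *ᵥ η) (pderiv l (a i₀).form) ≠ 0 := by
      intro η hη
      have hξ : Aᵀ *ᵥ η ≠ 0 := by
        intro h0
        apply hη
        have h1 : Rᵀ *ᵥ (Aᵀ *ᵥ η) = η := by
          rw [mulVec_mulVec, ← Matrix.transpose_mul, hAR, transpose_one, one_mulVec]
        rw [← h1, h0, mulVec_zero]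
      have hd1 : d - 1 ≠ 0 := by omega
      rcases ha (Aᵀ *ᵥ η) 0 hξ (by
        rw [zero_pow (by omega), zero_add]
        refine Finset.sum_eq_zero fun i _ => ?_
        rw [hc i η, zero_mul]) with h1 | ⟨l, hl⟩
      · exfalso
        apply h1
        rw [zero_pow hd1, mul_zero, zero_add]
        refine Finset.sum_eq_zero fun i _ => ?_
        rw [hc i η, mul_zero, zero_mul]
      · refine ⟨l, ?_⟩
        rw [Finset.sum_eq_single i₀] at hl
        · intro h0
          apply hl
          rw [h0, zero_mul]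
        · intro i _ hi
          have hne : (i : ℕ) ≠ d - 1 := by
            intro h0
            exact hi (Fin.ext h0)
          have hlt := i.2
          rw [zero_pow (by omega), mul_zero]
        · intro h0
          exact absurd (Finset.mem_univ _) h0
    obtain ⟨D, hD⟩ : ∃ D, ((i₀ : ℕ) + 1) * δ = D + 1 := by
      refine ⟨((i₀ : ℕ) + 1) * δ - 1, ?_⟩
      have : 0 < ((i₀ : ℕ) + 1) * δ := by positivity
      omega
    have hkey : ((N : ℚ) - D) * x ≤
        Curve.degree g + lineDegree (fun c => lam c ^ ((i₀ : ℕ) + 1)) := by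
      have hgen : ∀ (e : ℕ) (F : GlobalSection g e (fun c => lam c ^ ((i₀ : ℕ) + 1))),
          (∀ η : Fin (q + 1) → K, η ≠ 0 → ∃ l, eval (Aᵀ *ᵥ η) (pderiv l F.form) ≠ 0) →
          e = D + 1 → ((N : ℚ) - D) * x ≤
            Curve.degree g + lineDegree (fun c => lam c ^ ((i₀ : ℕ) + 1)) := by
        rintro e F hF rfl
        exact key_ineq' hg (isLineBundle_pow hlam _) F hx hA hF hh hxq
      exact hgen _ (a i₀) key hD
    rw [lineDegree_pow hlam] at hkey
    have h1 : (((i₀ : ℕ) + 1 : ℕ) : ℚ) = d := by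
      rw [hi₀v]
      congr 1
      omega
    have h2 : ((D : ℚ) + 1) = d * δ := by
      have h3 : ((((i₀ : ℕ) + 1) * δ : ℕ) : ℚ) = ((D + 1 : ℕ) : ℚ) := by rw [hD]
      rw [Nat.cast_mul, h1] at h3
      push_cast at h3
      linarith
    have h4 : ((i₀ : ℕ) + 1 : ℤ) * lineDegree lam = d * lineDegree lam := by
      congr 1
      exact_mod_cast (by omega : (i₀ : ℕ) + 1 = d)
    push_cast at hkey
    have h5 : (((i₀ : ℕ) : ℚ) + 1) = d := by exact_mod_cast h1
    rw [h5] at hkey
    have hdq : (0 : ℚ) < d := by exact_mod_cast hd0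
    have hJq : (J : ℚ) ≤ d := by exact_mod_cast hJ
    have hJ0 : (0 : ℚ) ≤ J := by positivity
    have h6 : (((N + 1 : ℕ) : ℚ) - d * δ) * x ≤ Curve.degree g + d * lineDegree lam := by
      have : ((N : ℚ) - D) = ((N + 1 : ℕ) : ℚ) - d * δ := by
        push_cast
        linarith
      rw [← this]
      exact hkey
    -- convex combination
    have h7 := mul_le_mul_of_nonneg_left h6 hJ0
    have h8 := mul_le_mul_of_nonneg_left hE (sub_nonneg.mpr hJq)
    have h9 : (d : ℚ) * ((((N + 1 : ℕ) : ℚ) - J * δ) * x) ≤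
        d * (Curve.degree g + J * lineDegree lam) := by
      linarith
    exact le_of_mul_le_mul_left h9 hdq
  · push Not at hc
    obtain ⟨i, η, hη⟩ := hc
    have h1 := section_slope hg (isLineBundle_pow hlam ((i : ℕ) + 1)) (a i) hx hA hη hh hxq
    rw [lineDegree_pow hlam] at h1
    push_cast at h1
    have h2 : (0 : ℚ) < (i : ℕ) + 1 := by positivity
    have h3 : (0 : ℚ) ≤ δ * x + lineDegree lam := by
      have h4 : (0 : ℚ) ≤ ((i : ℕ) + 1) * (δ * x + lineDegree lam) := by linarith
      exact nonneg_of_mul_nonneg_right h4 h2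
    have h5 := mul_nonneg (Nat.cast_nonneg (α := ℚ) J) h3
    linarith

/-- **The main theorem.** -/
theorem main {n δ d : ℕ} (hn : 1 ≤ n) (hδ : 1 ≤ δ) (hd : 2 ≤ d)
    {g : Option k → Matrix (Fin n) (Fin n) K} (hg : Curve.IsBundle g) {lam : Option k → K}
    (hlam : IsLineBundle lam) {a : Equation g δ d lam} (ha : NoSingularRationalPoint a)
    {m : Fin (n + 2) → ℕ} {β : Fin (n + 2) → Option k → K} (hβ : ∀ i, IsLineBundle (β i))
    (hA : ∀ i, IsPositive g (m i) (β i)) {w : Option k → K}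
    (hw : ∀ a, Curve.IsCanonicalGenerator a (w a)) :
    IsVeryAmple a (∑ i, m i - n) (fun c => w c * (g c).det * ∏ i, β i c) := by
  have hg' : IsBundle g := light_isBundle hg
  obtain ⟨hB, hm, hpos⟩ := positive_sum hβ hA
  set b : ℤ := lineDegree (fun a => ∏ i, β i a) with hb
  set M : ℕ := ∑ i, m i with hM
  have hM0 : 0 < M := by omega
  have hposM : ∀ s : ℕ, 0 < s → ∀ A : Matrix (Fin s) (Fin n) K, A.rank = s →
      ∀ h : Option k → Matrix (Fin s) (Fin s) K, IsQuotientBundle g A h →
        (n : ℤ) + 2 ≤ M * degree h + s * b := by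
    intro s hs A hrk h hh
    have := hpos s hs A hrk h hh
    push_cast at this ⊢
    exact this
  obtain ⟨x, q, A, h, hrk, hh, hxq, hx⟩ := exists_min_slope (k := k) (by omega : 0 < n) hM0
    (b := b) (fun s hs A hrk h hh => by
      have := hposM s hs A hrk h hh
      linarith) hg'
  have hX : (0 : ℚ) < M * x + b := by
    have h1 := hposM (q + 1) (Nat.succ_pos q) A hrk h hh
    have h2 : (n : ℚ) + 2 ≤ M * degree h + ((q + 1 : ℕ) : ℚ) * b := by exact_mod_cast h1
    rw [hxq] at h2
    push_cast at h2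
    have h3 : (0 : ℚ) < (q + 1) * (M * x + b) := by
      have : (0 : ℚ) ≤ (n : ℚ) := by positivity
      nlinarith
    have h4 : (0 : ℚ) < (q : ℚ) + 1 := by positivity
    exact (mul_pos_iff_of_pos_left h4).mp h3
  have hva : ∀ J : ℕ, J ≤ d → FJ.IsVeryAmple g (M - n + J * δ)
      (fun c => (w c * (g c).det * ∏ i, β i c) * lam c ^ J) := by
    intro J hJ
    have hkey := cover_key hn hδ hd hg hlam ha (x := x)
      (fun s hs A hrk h hh => hx s hs A hrk h (light_quotient' hh)) hrk (light_quotient hh) hxq hJ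
    rw [light_degree] at hkey
    have hβ' := isLineBundle_mul hB (isLineBundle_pow hlam J)
    have hdeg : lineDegree (fun c => (∏ i, β i c) * lam c ^ J) = b + J * lineDegree lam := by
      rw [lineDegree_mul hB (isLineBundle_pow hlam J), lineDegree_pow hlam]
    obtain ⟨e, he⟩ : ∃ e, M - n + J * δ = e + 1 := ⟨M - n + J * δ - 1, by omega⟩
    rw [he]
    have hfun : (fun c => (w c * (g c).det * ∏ i, β i c) * lam c ^ J) =
        fun c => w c * (g c).det * ((∏ i, β i c) * lam c ^ J) := by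
      funext c
      ring
    rw [hfun]
    refine veryAmple hg hβ' hw ?_
    intro r hr hrn
    have hr' : (0 : ℚ) < r := by exact_mod_cast hr
    have hM0' : (0 : ℚ) < M := by exact_mod_cast hM0
    refine ⟨max x ((((n : ℚ) + 2) / r - b) / M), ?_, ?_⟩
    · intro s hs hsr A' hrk' h' hh'
      have hs' : (0 : ℚ) < s := by exact_mod_cast hs
      rw [max_mul_of_nonneg _ _ hs'.le]
      refine max_le (hx s hs A' hrk' h' hh') ?_
      have h1 : ((n : ℚ) + 2) ≤ M * degree h' + s * b := by
        exact_mod_cast hposM s hs A' hrk' h' hh'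
      have h2 : ((n : ℚ) + 2) / r * s ≤ (n : ℚ) + 2 := by
        rw [div_mul_eq_mul_div, div_le_iff₀ hr']
        have : (s : ℚ) ≤ r := by exact_mod_cast hsr
        have h0 : (0 : ℚ) ≤ (n : ℚ) + 2 := by positivity
        exact mul_le_mul_of_nonneg_left this h0
      rw [div_mul_eq_mul_div, div_le_iff₀ hM0']
      nlinarith
    · rw [hdeg]
      have h1 := cover_numerics (n := n) (M := M) (r := r) (T := J * δ) (x := x)
        (y := max x ((((n : ℚ) + 2) / r - b) / M)) (b := b)
        (E := degree g + J * lineDegree lam) hr hn hm (by positivity) hkey hX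
        (le_max_left _ _) (by
          have h2 := le_max_right x ((((n : ℚ) + 2) / r - b) / M)
          rw [div_le_iff₀ hM0'] at h2
          linarith)
      have h3 : ((e : ℚ) + 1) = (M : ℚ) + J * δ - n := by
        have h4 : M + J * δ = n + e + 1 := by omega
        have : (M : ℚ) + J * δ = n + e + 1 := by exact_mod_cast h4
        linarith
      rw [h3]
      push_cast
      have h4 : r * (((M : ℚ) + J * δ - n) * max x ((((n : ℚ) + 2) / r - b) / M) +
          (degree g + J * lineDegree lam) + b) =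
          r * (((M : ℚ) + J * δ - n) * max x ((((n : ℚ) + 2) / r - b) / M) +
          degree g + (b + J * lineDegree lam)) := by ring
      rw [← h4]
      exact h1
  obtain ⟨D, rfl⟩ : ∃ D, d = D + 2 := ⟨d - 2, by omega⟩
  exact isVeryAmple_cover a (hva (D + 1) (by omega)) (hva D (by omega)).1

end Pool.Agent.HF.CV
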