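import Pool.Agent.FJ.Statement

/-!
# Finite covers of projective bundles over curves: definitions

`C` is the smooth projective curve with function field `K`, `E` a vector bundle of rank `n` on `C`
with frames `g` (see `Pool/Agent/Helper38/Scroll/Statement.lean`), `P = ℙ(E)`, `π : P → C`, `L` a
line bundle on `C` with local generators `lam` (see `Pool/Agent/FJ/Statement.lean`), `δ ≥ 1` and
`D = O(δ) ⊗ π^* L`. Sections `a_1, ..., a_d` of `D, D^2, ..., D^d` define the finite cover
`ρ : X → P` of degree `d`, the zero locus of `w^d + a_1 w^(d-1) + ... + a_d` in the total space of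
`D` (in the local frames `w` is the coordinate of a point of `D`). For instance, if all `a_i` with
`i < d` are zero, `X` is the cyclic cover of `P` branched along `a_d = 0`; all double covers of `P`
are of this form.
-/

namespace Pool.Agent.HF.CV

open Pool.Agent.Helper38.Scroll Pool.Agent.FJ MvPolynomial

variable {k K : Type} [Field k] [Field K] [Algebra (RatFunc k) K] [Algebra k K]
  [IsScalarTower k (RatFunc k) K]

/-- The equation `w^d + a_1 w^(d-1) + ... + a_d` of a cover of degree `d`: `a i` is a section of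
`D^(i+1)`, `D = O(δ) ⊗ π^* L`. -/
abbrev Equation {n : ℕ} (g : Option k → Matrix (Fin n) (Fin n) K) (δ d : ℕ)
    (lam : Option k → K) : Type :=
  ∀ i : Fin d, GlobalSection g ((i + 1) * δ) (fun a => lam a ^ ((i : ℕ) + 1))

/-- The generic fibre of the cover has no singular `K`-rational point: at the `K`-rational points
`(ξ, w)` with `w^d + a_1(ξ) w^(d-1) + ... + a_d(ξ) = 0` one of the partial derivatives is not
zero. (This holds if the generic fibre of `X → C` is smooth.) -/
def NoSingularRationalPoint {n δ d : ℕ} {g : Option k → Matrix (Fin n) (Fin n) K}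
    {lam : Option k → K} (a : Equation g δ d lam) : Prop :=
  ∀ (ξ : Fin n → K) (w : K), ξ ≠ 0 →
    w ^ d + ∑ i : Fin d, eval ξ (a i).form * w ^ (d - 1 - i) = 0 →
    (d * w ^ (d - 1) +
      ∑ i : Fin d, ((d - 1 - i : ℕ) : K) * eval ξ (a i).form * w ^ (d - 1 - i - 1) ≠ 0) ∨
    ∃ l, ∑ i : Fin d, eval ξ (pderiv l (a i).form) * w ^ (d - 1 - i) ≠ 0

/-- The `R`-valued point of the total space of `D`, given by an `R`-valued point `θ` of the curve,
the quotient `R^n → R` of the fibre of `E` with coordinates `ℓ`, and the coordinate `w`, lies on the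
cover. -/
def OnCover {n δ d : ℕ} {g : Option k → Matrix (Fin n) (Fin n) K} {lam : Option k → K}
    (a : Equation g δ d lam) {R : Type} [CommRing R] [Algebra k R] {c : Option k}
    (θ : Curve.PointOver k K c R) (ℓ : Fin n → R) (w : R) : Prop :=
  w ^ d + ∑ i : Fin d, (a i).value θ ℓ * w ^ (d - 1 - i) = 0

/-- A section of `ρ^* (N ⊗ D^(d-1))` on the cover `X`, where `N = O(m) ⊗ π^* B` and `B` has local
generators `β`: a sum `∑ s_j w^(d-1-j)` with sections `s_j` of `N ⊗ D^j` on `P`, `0 ≤ j < d`
(as `ρ_* O_X` is the direct sum of the `D^(-i)`, `0 ≤ i < d`). -/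
abbrev CoverSection {n : ℕ} (g : Option k → Matrix (Fin n) (Fin n) K) (δ d : ℕ)
    (lam : Option k → K) (m : ℕ) (β : Option k → K) : Type :=
  ∀ j : Fin d, GlobalSection g (m + j * δ) (fun a => β a * lam a ^ (j : ℕ))

/-- The value of a section at a point. -/
noncomputable def CoverSection.value {n : ℕ} {g : Option k → Matrix (Fin n) (Fin n) K} {δ d : ℕ}
    {lam : Option k → K} {m : ℕ} {β : Option k → K} (s : CoverSection g δ d lam m β) {R : Type}
    [CommRing R] [Algebra k R] {c : Option k} (θ : Curve.PointOver k K c R) (ℓ : Fin n → R)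
    (w : R) : R :=
  ∑ j : Fin d, (s j).value θ ℓ * w ^ (d - 1 - j)

/-- The sections of `ρ^* (N ⊗ D^(d-1))` have no common zero on `X`; a closed point of `X` is a
closed point `p` of the curve, a one-dimensional quotient of the fibre of `E` and `w ∈ k`
satisfying the equation. -/
def NoCommonZero {n δ d : ℕ} {g : Option k → Matrix (Fin n) (Fin n) K} {lam : Option k → K}
    (a : Equation g δ d lam) (m : ℕ) (β : Option k → K) : Prop :=
  ∀ (p : Curve.ClosedPoint k K) (x : Projectivization k (Fin n → k)) (w : k),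
    OnCover a p.2 x.rep w →
      ∃ s : CoverSection g δ d lam m β, s.value p.2 x.rep w ≠ 0

/-- The sections of `ρ^* (N ⊗ D^(d-1))` separate the closed points of `X`. -/
def SeparatesPoints {n δ d : ℕ} {g : Option k → Matrix (Fin n) (Fin n) K} {lam : Option k → K}
    (a : Equation g δ d lam) (m : ℕ) (β : Option k → K) : Prop :=
  ∀ (p p' : Curve.ClosedPoint k K) (x x' : Projectivization k (Fin n → k)) (w w' : k),
    OnCover a p.2 x.rep w → OnCover a p'.2 x'.rep w' → (p, x, w) ≠ (p', x', w') →
      ∃ s : CoverSection g δ d lam m β, s.value p.2 x.rep w = 0 ∧ s.value p'.2 x'.rep w' ≠ 0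

/-- The `k[ε]`-valued point `(θ, ℓ, w)` of `X` is the zero tangent vector, i.e. it is a `k`-valued
point: `θ` takes values in `k`, `ℓ = (1 + cε) ℓ₀` and `w = (1 + cε)^δ w₀` with `ℓ₀` and `w₀`
over `k`. -/
def IsZeroTangent {n : ℕ} (δ : ℕ) {a : Option k} (θ : Curve.PointOver k K a (DualNumber k))
    (ℓ : Fin n → DualNumber k) (w : DualNumber k) : Prop :=
  (∀ b, (θ b).snd = 0) ∧
    ∃ c : k, (∀ i, (ℓ i).snd = c * (ℓ i).fst) ∧ w.snd = δ * c * w.fst

/-- The sections of `ρ^* (N ⊗ D^(d-1))` separate the tangent vectors of `X`: for every nonzero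
tangent vector, i.e. nonconstant `k[ε]`-valued point, some section vanishes at the point but not
along the tangent vector. -/
def SeparatesTangents {n δ d : ℕ} {g : Option k → Matrix (Fin n) (Fin n) K}
    {lam : Option k → K} (a : Equation g δ d lam) (m : ℕ) (β : Option k → K) : Prop :=
  ∀ (c : Option k) (θ : Curve.PointOver k K c (DualNumber k)) (ℓ : Fin n → DualNumber k)
    (w : DualNumber k), (∃ i, (ℓ i).fst ≠ 0) → OnCover a θ ℓ w → ¬ IsZeroTangent δ θ ℓ w →
      ∃ s : CoverSection g δ d lam m β, (s.value θ ℓ w).fst = 0 ∧ (s.value θ ℓ w).snd ≠ 0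

/-- The line bundle `ρ^* (N ⊗ D^(d-1))` on `X` is very ample. -/
def IsVeryAmple {n δ d : ℕ} {g : Option k → Matrix (Fin n) (Fin n) K} {lam : Option k → K}
    (a : Equation g δ d lam) (m : ℕ) (β : Option k → K) : Prop :=
  NoCommonZero a m β ∧ SeparatesPoints a m β ∧ SeparatesTangents a m β

end Pool.Agent.HF.CV
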